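import Pool.Agent.PQP.StmtsZ
import Pool.Agent.Helper54_FLX.All

/-!
# Squad PQP, row SRZ: the regime of small `h`
-/

set_option autoImplicit false

open scoped InnerProductSpace Topology ContDiff Manifold
open MeasureTheory Filter Set

noncomputable section

namespace Pool.Agent.PQP.H4

open Pool.Agent.Helper42_Paneitz Pool.Agent.Helper82_Vir Pool.Agent.FLX Pool.Agent.PQP

theorem exp_sub_one_le_self (u : ℝ) : Real.exp u - 1 ≤ u * Real.exp u := by
  have h := Real.add_one_le_exp (-u)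
  have h3 : (1 - u) * Real.exp u ≤ 1 := by
    calc (1 - u) * Real.exp u ≤ Real.exp (-u) * Real.exp u :=
          mul_le_mul_of_nonneg_right (by linarith) (Real.exp_pos u).le
      _ = 1 := by rw [← Real.exp_add]; simp
  linarith

theorem abs_exp_sub_one (u : ℝ) : |Real.exp u - 1| ≤ |u| * Real.exp |u| := by
  have h1 : u ≤ Real.exp u - 1 := by linarith [Real.add_one_le_exp u]
  have h2 := exp_sub_one_le_self u
  have h3 : Real.exp u ≤ Real.exp |u| := Real.exp_le_exp.2 (le_abs_self u)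
  have h4 : 1 ≤ Real.exp |u| := Real.one_le_exp (abs_nonneg u)
  have h5 : |u| ≤ |u| * Real.exp |u| := le_mul_of_one_le_right (abs_nonneg u) h4
  rw [abs_le]
  constructor
  · linarith [neg_abs_le u]
  · calc _ ≤ u * Real.exp u := h2
      _ ≤ |u| * Real.exp u := mul_le_mul_of_nonneg_right (le_abs_self u) (Real.exp_pos u).le
      _ ≤ |u| * Real.exp |u| := mul_le_mul_of_nonneg_left h3 (abs_nonneg u)

theorem abs_exp_sub_one_sub (u : ℝ) : |Real.exp u - 1 - u| ≤ u ^ 2 * Real.exp |u| := by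
  have h0 : 0 ≤ Real.exp u - 1 - u := by linarith [Real.add_one_le_exp u]
  have h2 := exp_sub_one_le_self u
  rw [abs_of_nonneg h0]
  calc Real.exp u - 1 - u ≤ u * (Real.exp u - 1) := by linarith
    _ ≤ |u * (Real.exp u - 1)| := le_abs_self _
    _ = |u| * |Real.exp u - 1| := abs_mul _ _
    _ ≤ |u| * (|u| * Real.exp |u|) := mul_le_mul_of_nonneg_left (abs_exp_sub_one u) (abs_nonneg u)
    _ = u ^ 2 * Real.exp |u| := by rw [← mul_assoc, abs_mul_abs_self]; ring

theorem integrable_cont_vec {f : S4 → ℝ} (hf : Continuous f) :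
    Integrable (fun y : S4 => f y • (y : E5)) sig :=
  (hf.smul continuous_subtype_val).integrable_of_hasCompactSupport
    (HasCompactSupport.of_compactSpace _)

/-- the difference of two first moments -/
theorem moment_sub_le {f g : S4 → ℝ} {D : ℝ} (hf : Continuous f) (hg : Continuous g)
    (h : ∀ y, |f y - g y| ≤ D) :
    ‖(∫ y : S4, f y • (y : E5) ∂sig) - ∫ y : S4, g y • (y : E5) ∂sig‖ ≤ msig * D := by
  rw [← integral_sub (integrable_cont_vec hf) (integrable_cont_vec hg)]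
  have h1 : ∀ y : S4, ‖f y • (y : E5) - g y • (y : E5)‖ ≤ D := by
    intro y
    rw [← sub_smul, norm_smul, S4_norm, mul_one, Real.norm_eq_abs]
    exact h y
  refine (norm_integral_le_of_norm_le (integrable_cont (continuous_const (y := D)))
    (Eventually.of_forall h1)).trans ?_
  rw [integral_const_sig]

/-- SRZ -/
theorem srz : SrzStmt := by
  intro ψ hψ
  obtain ⟨-, -, -, -, hMoa, hMos, hMom, hKer, -, -, -⟩ := H54.rows_all
  obtain ⟨-, -, CK, hCK0, -, hK⟩ := hKer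
  obtain ⟨CN, hCN0, hN⟩ := H3.nle
  have hψc : Continuous ψ := continuous_of_sm hψ
  obtain ⟨m, hm0, hm⟩ := exists_bound hψc
  have hms := msig_pos
  have hsm : 0 < √msig := Real.sqrt_pos.2 hms
  obtain ⟨E, hE⟩ : ∃ E : ℝ, E = Real.exp m := ⟨_, rfl⟩
  have hE0 : 0 < E := by rw [hE]; exact Real.exp_pos m
  obtain ⟨C₂, hC₂⟩ : ∃ C₂ : ℝ, C₂ = √msig * (6 * (m * E)) := ⟨_, rfl⟩
  have hC₂0 : 0 ≤ C₂ := by rw [hC₂]; positivity
  obtain ⟨D, hD⟩ : ∃ D : ℝ, D = (CK + 1 / (24 * √msig)) * CN := ⟨_, rfl⟩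
  have hD0 : 0 ≤ D := by rw [hD]; positivity
  obtain ⟨C₃, hC₃⟩ : ∃ C₃ : ℝ, C₃ = D * C₂ + D + 1 := ⟨_, rfl⟩
  have hC₃0 : 0 < C₃ := by rw [hC₃]; positivity
  have hC₃a : D * C₂ ≤ C₃ := by rw [hC₃]; linarith
  have hC₃b : D ≤ C₃ := by
    rw [hC₃]
    have : 0 ≤ D * C₂ := mul_nonneg hD0 hC₂0
    linarith
  obtain ⟨C₄, hC₄⟩ : ∃ C₄ : ℝ, C₄ = CN * ((20 * C₃) * C₂ + (20 * C₃) ^ 2) +
    msig * (6 * (m ^ 2 * E)) := ⟨_, rfl⟩
  have hC₄0 : 0 ≤ C₄ := by rw [hC₄]; positivity
  refine ⟨min (1 / 4) (1 / (20 * C₃)), 20 * C₃ + C₄, lt_min (by norm_num) (by positivity),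
    by positivity, ?_⟩
  intro t θ b h ht0 ht1 hθ0 hθ1 hb hhc hhR heq
  obtain ⟨q, hq⟩ : ∃ q : S4 → ℝ, q = qt ψ t b := ⟨_, rfl⟩
  have hmb : Continuous fun x => ψ (mob b x) := continuous_of_sm (hMos.2 b hb ψ hψ)
  have hqc : Continuous q := by
    rw [hq]
    exact continuous_const.mul ((Real.continuous_exp.comp (continuous_const.mul hmb)).sub
      continuous_const)
  have htm : ∀ x, |t * ψ (mob b x)| ≤ t * m := fun x => by
    rw [abs_mul, abs_of_nonneg ht0]
    exact mul_le_mul_of_nonneg_left (hm _) ht0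
  have hexp : ∀ x, Real.exp |t * ψ (mob b x)| ≤ E := fun x => by
    rw [hE]
    apply Real.exp_le_exp.2
    calc _ ≤ t * m := htm x
      _ ≤ 1 * m := mul_le_mul_of_nonneg_right ht1 hm0
      _ = m := one_mul m
  have hqb : ∀ x, |q x| ≤ 6 * (m * E) * t := by
    intro x
    have h1 := abs_exp_sub_one (t * ψ (mob b x))
    have e : q x = 6 * (Real.exp (t * ψ (mob b x)) - 1) := by rw [hq]; rfl
    rw [e, abs_mul, abs_of_pos (by norm_num : (0 : ℝ) < 6)]
    have h2 : |t * ψ (mob b x)| * Real.exp |t * ψ (mob b x)| ≤ (t * m) * E :=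
      mul_le_mul (htm x) (hexp x) (Real.exp_pos _).le (by positivity)
    nlinarith
  have hqN : N2 q ≤ C₂ * t := by
    refine (N2_le_of_bound hqc hqb).trans (le_of_eq ?_)
    rw [hC₂]; ring
  have hNnc : ∀ g : S4 → ℝ, Continuous g → Continuous (Nn q g) := by
    intro g hg
    unfold Nn
    fun_prop
  -- the maximum point
  have : Nonempty S4 := ⟨pt 0⟩
  obtain ⟨x₀, -, hx₀⟩ := isCompact_univ.exists_isMaxOn univ_nonempty
    (f := fun x => |h x|) hhc.abs.continuousOn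
  have hmax : ∀ x, |h x| ≤ |h x₀| := fun x => hx₀ (mem_univ x)
  obtain ⟨R, hR⟩ : ∃ R : ℝ, R = |h x₀| := ⟨_, rfl⟩
  have hR0 : 0 ≤ R := by rw [hR]; exact abs_nonneg _
  rw [← hR] at hmax
  have hR1 : R ≤ 1 / 4 := by rw [hR]; exact (hhR x₀).trans (min_le_left _ _)
  have hR2 : R ≤ 1 / (20 * C₃) := by rw [hR]; exact (hhR x₀).trans (min_le_right _ _)
  have hR3 : C₃ * R ≤ 1 / 20 := by
    rw [le_div_iff₀ (by positivity)] at hR2
    linarith
  -- the bound for `R`
  have hNN : N2 (Nn q h) ≤ CN * (C₂ * t + R ^ 2) := by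
    have h1 := (hN q h h R (2 * R) hqc hhc hhc hR0 hR1 hmax hmax (fun x => by
      rw [sub_self, abs_zero]; positivity)).1
    refine h1.trans (mul_le_mul_of_nonneg_left (by linarith) hCN0)
  have hTf : |Tf ψ t b h x₀| ≤ 9 / 10 * R + C₃ * (t + R ^ 2) := by
    have h1 := H88.nrm h R hhc hmax x₀
    have h2 := hK (Nn q h) (hNnc h hhc) x₀
    have h3 := abs_avg_le (hNnc h hhc)
    have e : Tf ψ t b h x₀ = Aop h x₀ + K (Nn q h) x₀ - avg (Nn q h) / 24 := by
      rw [hq]; rfl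
    have h4 : |avg (Nn q h) / 24| ≤ N2 (Nn q h) / √msig / 24 := by
      rw [abs_div, abs_of_pos (by norm_num : (0 : ℝ) < 24)]
      exact div_le_div_of_nonneg_right h3 (by norm_num)
    have h5 : |Tf ψ t b h x₀| ≤ 9 / 10 * R + CK * N2 (Nn q h) + N2 (Nn q h) / √msig / 24 := by
      rw [e]
      refine (abs_sub _ _).trans ?_
      have h6 := abs_add_le (Aop h x₀) (K (Nn q h) x₀)
      linarith
    have h7 : CK * N2 (Nn q h) + N2 (Nn q h) / √msig / 24 =
        (CK + 1 / (24 * √msig)) * N2 (Nn q h) := by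
      field_simp
    have h8 : (CK + 1 / (24 * √msig)) * N2 (Nn q h) ≤ D * (C₂ * t + R ^ 2) := by
      rw [hD, mul_assoc]
      exact mul_le_mul_of_nonneg_left hNN (by positivity)
    have h9 : D * (C₂ * t + R ^ 2) ≤ C₃ * (t + R ^ 2) := by
      have a1 : D * C₂ * t ≤ C₃ * t := mul_le_mul_of_nonneg_right hC₃a ht0
      have a2 : D * R ^ 2 ≤ C₃ * R ^ 2 := mul_le_mul_of_nonneg_right hC₃b (sq_nonneg R)
      nlinarith
    linarith
  have hRt : R ≤ 20 * C₃ * t := by
    have h1 : R ≤ |Tf ψ t b h x₀| := by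
      have h2 := heq x₀
      rw [hR, h2, abs_mul, abs_of_nonneg hθ0]
      calc θ * |Tf ψ t b h x₀| ≤ 1 * |Tf ψ t b h x₀| :=
            mul_le_mul_of_nonneg_right hθ1 (abs_nonneg _)
        _ = _ := one_mul _
    have h3 : C₃ * R ^ 2 ≤ 1 / 20 * R := by
      calc C₃ * R ^ 2 = (C₃ * R) * R := by ring
        _ ≤ 1 / 20 * R := mul_le_mul_of_nonneg_right hR3 hR0
    nlinarith
  refine ⟨fun x => ?_, fun θ' hθ'0 hθ'1 => ?_⟩
  · refine (hmax x).trans (hRt.trans ?_)
    exact mul_le_mul_of_nonneg_right (by linarith) ht0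
  · have hh'c : Continuous fun x => θ' * h x := continuous_const.mul hhc
    have hh'b : ∀ x, |θ' * h x| ≤ R := fun x => by
      rw [abs_mul, abs_of_nonneg hθ'0]
      calc θ' * |h x| ≤ 1 * |h x| := mul_le_mul_of_nonneg_right hθ'1 (abs_nonneg _)
        _ = |h x| := one_mul _
        _ ≤ R := hmax x
    have h1 := (hN q (fun x => θ' * h x) (fun x => θ' * h x) R (2 * R) hqc hh'c hh'c hR0 hR1
      hh'b hh'b (fun x => by rw [sub_self, abs_zero]; positivity)).2.2
    have h2 : CN * (R * N2 q + R ^ 2) ≤ CN * ((20 * C₃) * C₂ + (20 * C₃) ^ 2) * t ^ 2 := by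
      have a1 : R * N2 q ≤ (20 * C₃ * t) * (C₂ * t) :=
        mul_le_mul hRt hqN (N2_nonneg q) (by positivity)
      have a2 : R ^ 2 ≤ (20 * C₃ * t) ^ 2 := pow_le_pow_left₀ hR0 hRt 2
      calc CN * (R * N2 q + R ^ 2) ≤ CN * ((20 * C₃ * t) * (C₂ * t) + (20 * C₃ * t) ^ 2) :=
            mul_le_mul_of_nonneg_left (by linarith) hCN0
        _ = _ := by ring
    have hgc : Continuous fun y => 6 * t * ψ (mob b y) := continuous_const.mul hmb
    have h3 := moment_sub_le (f := q) (g := fun y => 6 * t * ψ (mob b y))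
      (D := 6 * (m ^ 2 * E) * t ^ 2) hqc hgc (fun x => by
        have e : q x - 6 * t * ψ (mob b x) =
            6 * (Real.exp (t * ψ (mob b x)) - 1 - t * ψ (mob b x)) := by
          rw [hq]
          show 6 * (Real.exp (t * ψ (mob b x)) - 1) - 6 * t * ψ (mob b x) = _
          ring
        rw [e, abs_mul, abs_of_pos (by norm_num : (0 : ℝ) < 6)]
        have k1 := abs_exp_sub_one_sub (t * ψ (mob b x))
        have k2 : (t * ψ (mob b x)) ^ 2 ≤ (t * m) ^ 2 := by
          rw [← sq_abs (t * ψ (mob b x))]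
          exact pow_le_pow_left₀ (abs_nonneg _) (htm x) 2
        have k3 : (t * ψ (mob b x)) ^ 2 * Real.exp |t * ψ (mob b x)| ≤ (t * m) ^ 2 * E :=
          mul_le_mul k2 (hexp x) (Real.exp_pos _).le (sq_nonneg _)
        nlinarith)
    have e4 : (∫ y : S4, (6 * t * ψ (mob b y)) • (y : E5) ∂sig) = (6 * t) • mo ψ b := by
      unfold mo
      rw [← integral_smul]
      refine integral_congr_ae (Eventually.of_forall fun y => ?_)
      simp only
      rw [smul_smul]
    rw [e4] at h3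
    have e5 : Bv ψ t b (fun x => θ' * h x) =
        ∫ y : S4, Nn q (fun x => θ' * h x) y • (y : E5) ∂sig := by rw [hq]; rfl
    rw [e5]
    have h6 := norm_sub_le_norm_sub_add_norm_sub
      (∫ y : S4, Nn q (fun x => θ' * h x) y • (y : E5) ∂sig)
      (∫ y : S4, q y • (y : E5) ∂sig) ((6 * t) • mo ψ b)
    have h7 : CN * ((20 * C₃) * C₂ + (20 * C₃) ^ 2) * t ^ 2 +
        msig * (6 * (m ^ 2 * E) * t ^ 2) = C₄ * t ^ 2 := by rw [hC₄]; ring
    have h8 : C₄ * t ^ 2 ≤ (20 * C₃ + C₄) * t ^ 2 :=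
      mul_le_mul_of_nonneg_right (by linarith) (sq_nonneg t)
    linarith

end Pool.Agent.PQP.H4
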