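import Pool.Agent.PQP.StmtsE
import Pool.Agent.Helper54_FLX.All

/-!
# Squad PQP, row SRB: large perturbations away from a critical point
-/

set_option autoImplicit false

open scoped InnerProductSpace Topology ContDiff Manifold
open MeasureTheory Filter Set

noncomputable section

namespace Pool.Agent.PQP.H4

open Pool.Agent.Helper42_Paneitz Pool.Agent.Helper82_Vir Pool.Agent.FLX Pool.Agent.PQP

theorem isClosed_far (p : S4) (ρ : ℝ) : IsClosed {z : S4 | ρ ≤ ‖(z : E5) - (p : E5)‖} :=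
  isClosed_le continuous_const (continuous_subtype_val.sub continuous_const).norm

theorem norm_sub_sq_S4 (p z : S4) :
    ‖(z : E5) - (p : E5)‖ ^ 2 = 2 * (1 - ⟪(p : E5), (z : E5)⟫_ℝ) := by
  have h := dist_sq p z
  rwa [Subtype.dist_eq, dist_eq_norm] at h

/-- the integrand of `GG` is integrable -/
theorem integrableOn_far (p : S4) {ρ : ℝ} (hρ : 0 < ρ) {f : S4 → ℝ} (hf : Continuous f) :
    IntegrableOn (fun z : S4 => f z / (1 - ⟪(p : E5), (z : E5)⟫_ℝ) ^ 4)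
      {z : S4 | ρ ≤ ‖(z : E5) - (p : E5)‖} sig := by
  have hk : IsCompact {z : S4 | ρ ≤ ‖(z : E5) - (p : E5)‖} := (isClosed_far p ρ).isCompact
  refine ContinuousOn.integrableOn_compact hk ?_
  refine hf.continuousOn.div ?_ ?_
  · exact ((continuous_const.sub (continuous_const.inner continuous_subtype_val)).pow 4).continuousOn
  · intro z hz
    have h1 := norm_sub_sq_S4 p z
    have h2 : 0 < ‖(z : E5) - (p : E5)‖ := lt_of_lt_of_le hρ hz
    have h4 : 0 < ‖(z : E5) - (p : E5)‖ ^ 2 := by positivity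
    have h3 : 0 < 1 - ⟪(p : E5), (z : E5)⟫_ℝ := by linarith
    exact (pow_pos h3 4).ne'

/-- the far integral of a function plus a multiple of a function which vanishes near `p` -/
theorem GG_split (p : S4) {ρ : ℝ} (hρ : 0 < ρ) {f R : S4 → ℝ} (hf : Continuous f)
    (hR : Continuous R) (h0 : ∀ z : S4, ‖(z : E5) - (p : E5)‖ < ρ → R z = 0) (a : ℝ) :
    GG p ρ (fun z => f z + a * R z) =
      GG p ρ f + a * ∫ z, R z / (1 - ⟪(p : E5), (z : E5)⟫_ℝ) ^ 4 ∂sig := by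
  unfold GG
  have h1 : (∫ z, R z / (1 - ⟪(p : E5), (z : E5)⟫_ℝ) ^ 4 ∂sig) =
      ∫ z in {z : S4 | ρ ≤ ‖(z : E5) - (p : E5)‖},
        R z / (1 - ⟪(p : E5), (z : E5)⟫_ℝ) ^ 4 ∂sig := by
    symm
    apply setIntegral_eq_integral_of_forall_compl_eq_zero
    intro z hz
    rw [h0 z (not_le.1 hz), zero_div]
  rw [h1, ← integral_const_mul, ← integral_add]
  · refine integral_congr_ae (Eventually.of_forall fun z => ?_)
    simp only
    ring
  · exact integrableOn_far p hρ hf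
  · exact (integrableOn_far p hρ hR).const_mul a

/-- SRB -/
theorem srb (exa : ExaStmt) (ta3 : Ta3Stmt) : SrbStmt := by
  intro Q₀ R p U hQ hR hnd hQp hU hRU hI
  obtain ⟨-, -, -, -, -, -, -, -, hReg, hSlv, -⟩ := H54.rows_all
  set I : ℝ := ∫ z, R z / (1 - ⟪(p : E5), (z : E5)⟫_ℝ) ^ 4 ∂sig with hIdef
  obtain ⟨T₀, C, hC0, hsym, hT0, hinj, htr, hT⟩ := ta3 Q₀ p hQ hnd
  obtain ⟨r, hr, hrU⟩ := Metric.mem_nhds_iff.1 hU
  obtain ⟨ρ, hρ, hρ1, hρr⟩ : ∃ ρ : ℝ, 0 < ρ ∧ ρ ≤ 1 ∧ ρ ≤ r :=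
    ⟨min r 1, lt_min hr one_pos, min_le_right _ _, min_le_left _ _⟩
  have hRn : ∀ z : S4, ‖(z : E5) - (p : E5)‖ < ρ → R z = 0 := fun z hz => hRU z (hrU (by
    rw [Metric.mem_ball, Subtype.dist_eq, dist_eq_norm]
    exact lt_of_lt_of_le hz hρr))
  obtain ⟨c, hc0, hcQ⟩ : ∃ c : ℝ, 0 < c ∧ c * Q₀ p = 6 :=
    ⟨6 / Q₀ p, by positivity, by field_simp⟩
  obtain ⟨T, hTdef⟩ : ∃ T : E5 →L[ℝ] E5, ∀ v, T v = (-(c / 2)) • T₀ v :=
    ⟨(-(c / 2)) • T₀, fun v => rfl⟩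
  have hcn : -(c / 2) ≠ 0 := by
    have := hc0.ne'
    intro h
    apply this
    linarith
  have hgeo : Geo p T ρ := by
    refine ⟨hρ, hρ1, fun u v => ?_, ?_, fun v hv hTv => hinj v hv ?_⟩
    · rw [hTdef, hTdef, real_inner_smul_left, real_inner_smul_right, hsym]
    · rw [hTdef, hT0, smul_zero]
    · rw [hTdef] at hTv
      exact (smul_eq_zero.1 hTv).resolve_left hcn
  have htrT : tr5 T = -(c / 2) * sphLaplacian Q₀ p := by
    rw [← htr]
    unfold tr5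
    rw [Finset.mul_sum]
    refine Finset.sum_congr rfl fun i _ => ?_
    rw [hTdef, real_inner_smul_left]
  have hΔ : sphLaplacian Q₀ p ≠ 0 := fun h => by
    rw [h, zero_mul] at hI; exact lt_irrefl _ hI
  have hI0 : I ≠ 0 := fun h => by
    rw [h, mul_zero] at hI; exact lt_irrefl _ hI
  have hIp : 0 < |I| := abs_pos.2 hI0
  have htr0 : tr5 T ≠ 0 := by
    rw [htrT]; exact mul_ne_zero hcn hΔ
  obtain ⟨s₀, hs₀, hex⟩ := exa p T ρ hgeo htr0
  have hQc : Continuous Q₀ := continuous_of_sm hQ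
  have hRc : Continuous R := continuous_of_sm hR
  obtain ⟨B₁, hB₁, hQB⟩ := exists_bound hQc
  obtain ⟨B₂, hB₂, hRB⟩ := exists_bound hRc
  obtain ⟨G₀, hG₀⟩ : ∃ G₀ : ℝ, G₀ = GG p ρ (fun z => c * Q₀ z - 6) := ⟨_, rfl⟩
  have hGG : ∀ t : ℝ, GG p ρ (fun z => c * (Q₀ z + t * R z) - 6) = G₀ + c * t * I := by
    intro t
    have e : (fun z => c * (Q₀ z + t * R z) - 6) = fun z => (c * Q₀ z - 6) + (c * t) * R z := by
      funext z; ring
    rw [e, GG_split p hρ ((continuous_const.fun_mul hQc).fun_sub continuous_const) hRc hRn,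
      ← hG₀]
  obtain ⟨M₁, hM₁⟩ : ∃ M₁ : ℝ, M₁ = c * B₁ + c * B₂ + 6 := ⟨_, rfl⟩
  have hM₁0 : 0 < M₁ := by rw [hM₁]; positivity
  have hcI : 0 < c * |I| := mul_pos hc0 hIp
  obtain ⟨Kk, hK1, hK2, hK3⟩ : ∃ Kk : ℝ, 1 ≤ Kk ∧ c * C ≤ Kk ∧ 2 * M₁ / (c * |I|) ≤ Kk :=
    ⟨max (max 1 (c * C)) (2 * M₁ / (c * |I|)), (le_max_left _ _).trans (le_max_left _ _),
      (le_max_right _ _).trans (le_max_left _ _), le_max_right _ _⟩
  have hK0 : 0 ≤ Kk := zero_le_one.trans hK1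
  obtain ⟨N, hN1, hN2⟩ : ∃ N : ℝ, s₀⁻¹ ^ 2 ≤ N ∧ (Kk ^ 24) ^ 2 ≤ N :=
    ⟨max _ _, le_max_left _ _, le_max_right _ _⟩
  refine ⟨max 1 (max (2 * |G₀| / (c * |I|)) (2 * N / (c * |I|))), fun t ht => ?_⟩
  have ht1 : 1 ≤ t := (le_max_left _ _).trans ht
  have ht2 : 2 * |G₀| ≤ t * (c * |I|) := by
    rw [← div_le_iff₀ hcI]
    exact ((le_max_left _ _).trans (le_max_right _ _)).trans ht
  have ht3 : 2 * N ≤ t * (c * |I|) := by
    rw [← div_le_iff₀ hcI]
    exact ((le_max_right _ _).trans (le_max_right _ _)).trans ht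
  have ht0 : 0 < t := lt_of_lt_of_le one_pos ht1
  have hpos : 0 < t * (c * |I|) := mul_pos ht0 hcI
  -- lower bound of `|GG|`
  have habs : |c * t * I| = t * (c * |I|) := by
    rw [abs_mul, abs_of_pos (mul_pos hc0 ht0)]; ring
  have hGlow : t * (c * |I|) - |G₀| ≤ |G₀ + c * t * I| := by
    rw [← habs]
    have h1 := abs_sub_abs_le_abs_sub (c * t * I) (-G₀)
    rw [abs_neg] at h1
    have e : c * t * I - -G₀ = G₀ + c * t * I := by ring
    rwa [e] at h1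
  obtain ⟨G, hG⟩ : ∃ G : ℝ, G = |G₀ + c * t * I| := ⟨_, rfl⟩
  have hG1 : t * (c * |I|) / 2 ≤ G := by rw [hG]; linarith
  have hG0 : 0 < G := lt_of_lt_of_le (by positivity) hG1
  have hGN : N ≤ G := by linarith
  have hsq : 0 < √G := Real.sqrt_pos.2 hG0
  have h1s : s₀⁻¹ ≤ √G := Real.le_sqrt_of_sq_le (hN1.trans hGN)
  have h2s : Kk ^ 24 ≤ √G := Real.le_sqrt_of_sq_le (hN2.trans hGN)
  obtain ⟨s, hs⟩ : ∃ s : ℝ, s = (√G)⁻¹ := ⟨_, rfl⟩
  have hs0 : 0 < s := by rw [hs]; exact inv_pos.2 hsq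
  have hss₀ : s ≤ s₀ := by
    rw [hs]
    exact inv_le_of_inv_le₀ hs₀ h1s
  have hpow : Kk ≤ s ^ (-(1 / 24) : ℝ) := by
    rw [Real.rpow_neg hs0.le, ← Real.inv_rpow hs0.le, hs, inv_inv]
    have h1 : (Kk ^ 24) ^ ((1 : ℝ) / 24) ≤ (√G) ^ ((1 : ℝ) / 24) :=
      Real.rpow_le_rpow (by positivity) h2s (by norm_num)
    have h2 : (Kk ^ 24) ^ ((1 : ℝ) / 24) = Kk := by
      rw [← Real.rpow_natCast, ← Real.rpow_mul hK0]
      norm_num
    rw [h2] at h1
    exact h1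
  obtain ⟨q, hq⟩ : ∃ q : S4 → ℝ, q = fun z => c * (Q₀ z + t * R z) - 6 := ⟨_, rfl⟩
  have hqG : |GG p ρ q| = G := by rw [hq, hGG t, hG]
  have hcon : Con p T ρ q 1 (c * C) (M₁ * t) := by
    refine ⟨?_, le_refl _, mul_nonneg hc0.le hC0, mul_nonneg hM₁0.le ht0.le, ?_, ?_⟩
    · rw [hq]
      exact (continuous_const.fun_mul (hQc.fun_add (continuous_const.fun_mul hRc))).fun_sub
        continuous_const
    · intro z hz
      have e : q z + 1 * ⟪T (z : E5), (z : E5)⟫_ℝ =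
          c * (Q₀ z - Q₀ p - 1 / 2 * ⟪T₀ (z : E5), (z : E5)⟫_ℝ) := by
        rw [hq]
        show c * (Q₀ z + t * R z) - 6 + 1 * ⟪T (z : E5), (z : E5)⟫_ℝ = _
        rw [hRn z hz, hTdef, real_inner_smul_left, ← hcQ]
        ring
      rw [e, abs_mul, abs_of_pos hc0, mul_assoc]
      exact mul_le_mul_of_nonneg_left (hT z) hc0.le
    · intro z _
      rw [hq]
      show |c * (Q₀ z + t * R z) - 6| ≤ M₁ * t
      have a1 := abs_le.1 (hQB z)
      have a2 := abs_le.1 (hRB z)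
      have b1 : |c * (Q₀ z + t * R z) - 6| ≤ c * (B₁ + t * B₂) + 6 := by
        rw [abs_le]
        have c1 : t * R z ≤ t * B₂ := mul_le_mul_of_nonneg_left a2.2 ht0.le
        have c2 : t * (-B₂) ≤ t * R z := mul_le_mul_of_nonneg_left a2.1 ht0.le
        have c3 : c * (Q₀ z + t * R z) ≤ c * (B₁ + t * B₂) :=
          mul_le_mul_of_nonneg_left (by linarith) hc0.le
        have c4 : c * (-(B₁ + t * B₂)) ≤ c * (Q₀ z + t * R z) :=
          mul_le_mul_of_nonneg_left (by linarith) hc0.le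
        constructor
        · linarith
        · linarith
      refine b1.trans ?_
      rw [hM₁]
      have d1 : c * B₁ ≤ c * B₁ * t := le_mul_of_one_le_right (mul_nonneg hc0.le hB₁) ht1
      nlinarith
  have hsign : 0 < tr5 T * GG p ρ q := by
    rw [hq, hGG t, htrT]
    have hD : 0 < |sphLaplacian Q₀ p| := abs_pos.2 hΔ
    have e1 : -(sphLaplacian Q₀ p * I) = |sphLaplacian Q₀ p| * |I| := by
      rw [← abs_mul, abs_of_neg hI]
    have e2 : sphLaplacian Q₀ p * G₀ ≤ |sphLaplacian Q₀ p| * |G₀| := by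
      rw [← abs_mul]; exact le_abs_self _
    have e3 : |sphLaplacian Q₀ p| * |G₀| < |sphLaplacian Q₀ p| * (t * (c * |I|)) := by
      apply mul_lt_mul_of_pos_left _ hD
      linarith
    have e4 : -(c / 2) * sphLaplacian Q₀ p * (G₀ + c * t * I) =
        c / 2 * (|sphLaplacian Q₀ p| * (t * (c * |I|)) - sphLaplacian Q₀ p * G₀) := by
      have : |sphLaplacian Q₀ p| * (t * (c * |I|)) = t * c * (|sphLaplacian Q₀ p| * |I|) := by ring
      rw [this, ← e1]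
      ring
    rw [e4]
    have : 0 < |sphLaplacian Q₀ p| * (t * (c * |I|)) - sphLaplacian Q₀ p * G₀ := by linarith
    positivity
  have hk : s ^ 2 * |GG p ρ q| = 1 := by
    rw [hqG, hs, inv_pow, Real.sq_sqrt hG0.le, inv_mul_cancel₀ hG0.ne']
  have hMle : M₁ * t ≤ s ^ (-(1 / 24) : ℝ) * |GG p ρ q| := by
    rw [hqG]
    have g1 : 2 * M₁ ≤ Kk * (c * |I|) := (div_le_iff₀ hcI).1 hK3
    calc M₁ * t = (2 * M₁) * (t / 2) := by ring
      _ ≤ (Kk * (c * |I|)) * (t / 2) := by gcongr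
      _ = Kk * (t * (c * |I|) / 2) := by ring
      _ ≤ s ^ (-(1 / 24) : ℝ) * G := by
          apply mul_le_mul hpow hG1 (by positivity) (hK0.trans hpow)
  obtain ⟨w, hw, -⟩ := hex q 1 (c * C) (M₁ * t) s hcon hs0 hss₀ hsign hk (hK1.trans hpow)
    (hK2.trans hpow) hMle
  have hsm : Sm (fun x => Q₀ x + t * R x) := hQ.add (hR.smul t)
  have hw' : IE (fun x => c * (Q₀ x + t * R x)) w := by
    have e : (fun x => 6 + q x) = fun x => c * (Q₀ x + t * R x) := by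
      rw [hq]; funext x; ring
    rwa [e] at hw
  obtain ⟨hu, hP⟩ := H54.scaleE (Q := fun x => Q₀ x + t * R x) hc0
    (H54.finE hReg hSlv (hsm.smul c) hw')
  exact ⟨contMDiff_of_sm hsm, _, contMDiff_of_sm hu, hP⟩

end Pool.Agent.PQP.H4
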